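import Mathlib
import Pool.Agent.Helper224_tor.Bridge

/-!
# Torus-invariant almost complex structures tamed by symplectic forms

`P` is a compact manifold (without boundary). The following are equivalent:

* the product of a torus of dimension `2 k` and `P` carries a closed two-form `σ` and a
  torus-invariant field `A` of endomorphisms of the tangent bundle with `σ (v, A v) > 0` for all
  nonzero `v` (for instance a symplectic form, invariant or not, which tames a torus-invariant
  almost complex structure `A`);
* this product carries a torus-invariant symplectic form;
* `P` carries a symplectic form.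

More generally, for a torus of dimension `2 k + r` the third condition is: the product of a torus
of dimension `r` and `P` carries a symplectic form invariant under the torus.
-/

set_option autoImplicit false

open scoped Manifold ContDiff

namespace Pool.Agent.Results.MP_9986fc_gt.TorusInvariant

open Pool.Agent.Helper224_torP

theorem result (k : ℕ) (V : Type) [NormedAddCommGroup V] [NormedSpace ℝ V]
    [FiniteDimensional ℝ V] (P : Type) [TopologicalSpace P] [ChartedSpace V P]
    [IsManifold 𝓘(ℝ, V) ∞ P] [CompactSpace P] :
    List.TFAE [Tamed V P (2 * k), InvSymp V P (2 * k), Symp V P] ∧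
    ∀ r : ℕ, List.TFAE [Tamed V P (2 * k + r), InvSymp V P (2 * k + r), InvSymp V P r] := by
  constructor
  · rw [Pool.Agent.Helper224_tor.tamed_iff, Pool.Agent.Helper224_tor.inv_iff,
      Pool.Agent.Helper224_tor.symp_iff]
    exact Pool.Agent.Helper224_tor.tfae0 k
  · intro r
    rw [Pool.Agent.Helper224_tor.tamed_iff, Pool.Agent.Helper224_tor.inv_iff,
      Pool.Agent.Helper224_tor.inv_iff]
    exact Pool.Agent.Helper224_tor.tfaer k r

end Pool.Agent.Results.MP_9986fc_gt.TorusInvariant
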